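import Pool.Agent.W401.Cheb.Main
import Pool.Agent.Cov.PNT

/-!
# Chebotarev's theorem in windows
-/

set_option autoImplicit false

open Filter Topology Pool.Agent.W401.Cheb

namespace Pool.Agent.R503.CR

/-- the number of homomorphisms with Frobenius `g`, summed over the primes up to `N` -/
noncomputable def cnt (L : Type) [Field L] [NumberField L] (g : Gal(L/ℚ)) (N : ℕ) : ℝ :=
  ∑ p ∈ pr N, (xp L g p : ℝ)

lemma cheb_log (L : Type) [Field L] [NumberField L] [IsGalois ℚ L] (g : Gal(L/ℚ)) :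
    Tendsto (fun N : ℕ => cnt L g N * Real.log N / N) atTop (𝓝 1) := by
  have h1 := chebotarev L g
  have h2 : Tendsto (fun N : ℕ => (Nat.primeCounting N : ℝ) * Real.log N / N) atTop (𝓝 1) := by
    have := Pool.Agent.Cov.PNT.pi_tendsto.comp (tendsto_natCast_atTop_atTop (R := ℝ))
    refine this.congr fun N => ?_
    simp
  have h3 := h1.mul h2
  rw [one_mul] at h3
  refine h3.congr' ?_
  filter_upwards [eventually_ge_atTop 2] with N hN
  have hp : (Nat.primeCounting N : ℝ) ≠ 0 := by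
    have : Nat.primeCounting N ≠ 0 := by
      rw [Ne, Nat.primeCounting_eq_zero_iff]
      omega
    exact_mod_cast this
  unfold cnt
  field_simp

lemma floor_div {κ : ℝ} (hκ : 0 < κ) :
    Tendsto (fun n : ℕ => (⌊κ * n⌋₊ : ℝ) / n) atTop (𝓝 κ) :=
  (tendsto_nat_floor_mul_div_atTop hκ.le).comp tendsto_natCast_atTop_atTop

lemma floor_atTop {κ : ℝ} (hκ : 0 < κ) : Tendsto (fun n : ℕ => ⌊κ * n⌋₊) atTop atTop :=
  tendsto_nat_floor_atTop.comp (Tendsto.const_mul_atTop hκ tendsto_natCast_atTop_atTop)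

lemma log_floor {κ : ℝ} (hκ : 0 < κ) :
    Tendsto (fun n : ℕ => Real.log (⌊κ * n⌋₊ : ℝ) / Real.log n) atTop (𝓝 1) := by
  have h1 := (Real.continuousAt_log hκ.ne').tendsto.comp (floor_div hκ)
  have h3 : Tendsto (fun n : ℕ => Real.log (n : ℝ)) atTop atTop :=
    Real.tendsto_log_atTop.comp tendsto_natCast_atTop_atTop
  have h4 := (h1.div_atTop h3).add_const 1
  rw [zero_add] at h4
  refine h4.congr' ?_
  filter_upwards [eventually_ge_atTop 2, (floor_atTop hκ).eventually_ge_atTop 1] with n hn hf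
  have hn1 : (1 : ℝ) < n := by exact_mod_cast hn
  have hlog : Real.log (n : ℝ) ≠ 0 := (Real.log_pos hn1).ne'
  have hf0 : (⌊κ * n⌋₊ : ℝ) ≠ 0 := by
    have : ⌊κ * (n : ℝ)⌋₊ ≠ 0 := by omega
    exact_mod_cast this
  simp only [Function.comp_apply]
  rw [Real.log_div hf0 (by linarith : (n : ℝ) ≠ 0)]
  field_simp
  ring

/-- the sum over a window -/
theorem window (L : Type) [Field L] [NumberField L] [IsGalois ℚ L] (g : Gal(L/ℚ)) {δ c : ℝ}
    (hδ : 0 < δ) (hδ1 : δ < 1 / 2) (hc : c < 1 - 2 * δ) :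
    ∀ᶠ n : ℕ in atTop, c * n ≤
      ∑ p ∈ pr ⌊(1 - δ) * n⌋₊ \ pr ⌊δ * n⌋₊, (xp L g p : ℝ) * Real.log p := by
  have hδ2 : 0 < 1 - δ := by linarith
  have hA1 := (cheb_log L g).comp (floor_atTop hδ2)
  have hA0 := (cheb_log L g).comp (floor_atTop hδ)
  have hl1 := log_floor hδ2
  have hl0 := log_floor hδ
  have h1 := (hA1.mul (floor_div hδ2)).mul (hl0.div hl1 one_ne_zero)
  have h0 := hA0.mul (floor_div hδ)
  have h2 := h1.sub h0
  have e1 : 1 * (1 - δ) * (1 / 1) - 1 * δ = 1 - 2 * δ := by ring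
  rw [e1] at h2
  filter_upwards [h2.eventually (lt_mem_nhds hc), eventually_ge_atTop 2,
    (floor_atTop hδ).eventually_ge_atTop 2, (floor_atTop hδ2).eventually_ge_atTop 2] with n hn hn2
    hf0 hf1
  set N₀ : ℕ := ⌊δ * n⌋₊ with hN₀
  set N₁ : ℕ := ⌊(1 - δ) * n⌋₊ with hN₁
  have hn1 : (1 : ℝ) < n := by exact_mod_cast hn2
  have hn0 : (n : ℝ) ≠ 0 := by linarith
  have hlog : Real.log (n : ℝ) ≠ 0 := (Real.log_pos hn1).ne'
  have hN0 : (1 : ℝ) < N₀ := by exact_mod_cast hf0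
  have hN1 : (1 : ℝ) < N₁ := by exact_mod_cast hf1
  have hl0' : 0 < Real.log (N₀ : ℝ) := Real.log_pos hN0
  have hl1' : 0 < Real.log (N₁ : ℝ) := Real.log_pos hN1
  have hle : N₀ ≤ N₁ := Nat.floor_mono (mul_le_mul_of_nonneg_right (by linarith) (by linarith))
  have h3 : c * n < Real.log N₀ * (cnt L g N₁ - cnt L g N₀) := by
    simp only [Function.comp_apply, Pi.div_apply] at hn
    rw [← hN₀, ← hN₁] at hn
    have h4 : cnt L g N₁ * Real.log N₁ / N₁ * ((N₁ : ℝ) / n) *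
        ((Real.log N₀ / Real.log n) / (Real.log N₁ / Real.log n)) -
        cnt L g N₀ * Real.log N₀ / N₀ * ((N₀ : ℝ) / n) =
        Real.log N₀ * (cnt L g N₁ - cnt L g N₀) / n := by
      have : (N₁ : ℝ) ≠ 0 := by linarith
      have : (N₀ : ℝ) ≠ 0 := by linarith
      field_simp
    rw [h4, lt_div_iff₀ (by linarith)] at hn
    exact hn
  refine h3.le.trans ?_
  have hsub : pr N₀ ⊆ pr N₁ := by
    intro p hp
    rw [mem_pr] at hp ⊢
    exact ⟨hp.1.trans hle, hp.2⟩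
  have h5 : cnt L g N₁ - cnt L g N₀ = ∑ p ∈ pr N₁ \ pr N₀, (xp L g p : ℝ) := by
    unfold cnt
    rw [← Finset.sum_sdiff hsub]
    ring
  rw [h5, Finset.mul_sum]
  refine Finset.sum_le_sum fun p hp => ?_
  rw [Finset.mem_sdiff, mem_pr, mem_pr] at hp
  have hp1 : N₀ < p := by
    by_contra h
    exact hp.2 ⟨not_lt.1 h, hp.1.2⟩
  rw [mul_comm]
  refine mul_le_mul_of_nonneg_left ?_ (Nat.cast_nonneg _)
  exact Real.log_le_log (by linarith) (by exact_mod_cast hp1.le)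

end Pool.Agent.R503.CR
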