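import Pool.Agent.R503.CR.Norm
import Pool.Agent.R503.CR.Asy
import Pool.Agent.R920.CH.Main

/-!
# Chern roots in a fixed Galois number field
-/

set_option autoImplicit false

open NumberField Filter Topology Pool.Agent.W401.Cheb Pool.Agent.R920.CH

namespace Pool.Agent.R503.CR

theorem main_gal (L : Type) [Field L] [NumberField L] [IsGalois ℚ L] (θ c : ℝ) (hθ : 0 ≤ θ)
    (hc0 : 0 < c) (hc : c * Module.finrank ℚ L < 1 - 2 * θ) : ∃ n₀ : ℕ, ∀ n : ℕ, n₀ ≤ n →
    ∀ (r : ℕ) (P : Polynomial ℤ), (r : ℝ) ≤ θ * n → P.Monic → P.natDegree = r →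
      RiemannRoch n P → ∀ x : 𝓞 L, Polynomial.aeval x P = 0 → ∀ g : Gal(L/ℚ), g • x ≠ x →
        ∃ τ : L →ₐ[ℚ] ℂ, Real.exp (c * n) ≤ ‖τ ((g • x : 𝓞 L) : L) - τ (x : L)‖ := by
  classical
  set d : ℕ := Module.finrank ℚ L with hd
  have hd0 : 0 < d := Module.finrank_pos
  have hd0' : (0 : ℝ) < d := by exact_mod_cast hd0
  set ε : ℝ := (1 - 2 * θ - c * d) / 4 with hε
  have hε0 : 0 < ε := by rw [hε]; linarith
  set δ : ℝ := θ + ε with hδ
  have hδ0 : 0 < δ := by rw [hδ]; linarith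
  have hcd : 0 < c * d := by positivity
  have hδ1 : δ < 1 / 2 := by rw [hδ, hε]; linarith
  have hδc : c * d < 1 - 2 * δ := by rw [hδ, hε]; linarith
  obtain ⟨D, hD, htor⟩ := torsor L
  have hdisc : discr L ≠ 0 := discr_ne_zero L
  set B : ℕ := D * (discr L).natAbs with hB
  have hev : ∀ᶠ n : ℕ in atTop, (∀ g : Gal(L/ℚ), c * d * n ≤
      ∑ p ∈ pr ⌊(1 - δ) * n⌋₊ \ pr ⌊δ * n⌋₊, (xp L g p : ℝ) * Real.log p) ∧ B ≤ ⌊δ * n⌋₊ :=
    (eventually_all.2 fun g => window L g hδ0 hδ1 hδc).and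
      ((floor_atTop hδ0).eventually_ge_atTop B)
  obtain ⟨n₀, hn₀⟩ := eventually_atTop.1 hev
  refine ⟨n₀, fun n hn r P hr hP hdeg hRR x hx g hg => ?_⟩
  obtain ⟨hw, hBn⟩ := hn₀ n hn
  by_contra hcon
  push Not at hcon
  set y : 𝓞 L := g • x - x with hy
  have hy0 : y ≠ 0 := sub_ne_zero.2 hg
  set T : Finset ℕ := pr ⌊(1 - δ) * n⌋₊ \ pr ⌊δ * n⌋₊ with hT
  have hTp : ∀ p ∈ T, p.Prime ∧ r < p ∧ p + r ≤ n + 1 ∧ B < p := by
    intro p hp
    rw [hT, Finset.mem_sdiff, mem_pr, mem_pr] at hp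
    have h1 : ⌊δ * n⌋₊ < p := by
      by_contra h
      exact hp.2 ⟨not_lt.1 h, hp.1.2⟩
    have h2 : δ * n < p := (Nat.floor_lt' hp.1.2.ne_zero).1 h1
    have h3 : (p : ℝ) ≤ (1 - δ) * n :=
      (Nat.le_floor_iff (mul_nonneg (by linarith) (Nat.cast_nonneg _))).1 hp.1.1
    have hn' : (0 : ℝ) ≤ n := Nat.cast_nonneg _
    have h4 : θ * n ≤ δ * n := mul_le_mul_of_nonneg_right (by rw [hδ]; linarith) hn'
    refine ⟨hp.1.2, ?_, ?_, hBn.trans_lt h1⟩
    · have : (r : ℝ) < p := by linarith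
      exact_mod_cast this
    · have : (p : ℝ) + r ≤ n := by
        have h5 : (1 - δ) * n + θ * n ≤ n := by nlinarith
        linarith
      have : p + r ≤ n := by exact_mod_cast this
      omega
  have hdvd : ∀ p ∈ T, (p : ℤ) ^ (xp L g p) ∣ Algebra.norm ℤ y := by
    intro p hp
    obtain ⟨h1, h2, h3, h4⟩ := hTp p hp
    haveI : Fact p.Prime := ⟨h1⟩
    have hDp : ¬ p ∣ D := by
      intro h
      have h5 := Nat.le_of_dvd hD h
      have h6 : D ≤ B := Nat.le_mul_of_pos_right _ (Int.natAbs_pos.2 hdisc)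
      omega
    have hdp : ¬ (p : ℤ) ∣ discr L := by
      intro h
      have h5 := Nat.le_of_dvd (Int.natAbs_pos.2 hdisc) (Int.natCast_dvd.1 h)
      have h6 : (discr L).natAbs ≤ B := Nat.le_mul_of_pos_left _ hD
      omega
    refine xp_dvd (htor p hDp) hdp y hy0 g fun φ hφ => ?_
    rw [hy, map_sub, hφ x, root_pow P hP hdeg hRR p h2 h3 hx φ, sub_self]
  have hprod : (∏ p ∈ T, (p : ℤ) ^ (xp L g p)) ∣ Algebra.norm ℤ y := by
    refine Finset.prod_dvd_of_coprime ?_ hdvd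
    intro p hp q hq hpq
    exact IsCoprime.pow (Nat.isCoprime_iff_coprime.2
      ((Nat.coprime_primes (hTp p hp).1 (hTp q hq).1).2 hpq))
  have hnorm0 : Algebra.norm ℤ y ≠ 0 := by
    rw [Ne, Algebra.norm_eq_zero_iff]
    exact hy0
  have hle : (∏ p ∈ T, ((p : ℝ)) ^ (xp L g p)) ≤ |((Algebra.norm ℤ y : ℤ) : ℝ)| := by
    have h1 := Int.le_of_dvd (abs_pos.2 hnorm0) ((dvd_abs _ _).2 hprod)
    have h2 : (((∏ p ∈ T, (p : ℤ) ^ (xp L g p) : ℤ)) : ℝ) ≤ ((|Algebra.norm ℤ y| : ℤ) : ℝ) := by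
      exact_mod_cast h1
    push_cast at h2
    exact h2
  have hlog : ∑ p ∈ T, (xp L g p : ℝ) * Real.log p ≤ Real.log |((Algebra.norm ℤ y : ℤ) : ℝ)| := by
    have h1 : Real.log (∏ p ∈ T, ((p : ℝ)) ^ (xp L g p)) =
        ∑ p ∈ T, (xp L g p : ℝ) * Real.log p := by
      rw [Real.log_prod]
      · exact Finset.sum_congr rfl fun p _ => Real.log_pow _ _
      · intro p hp
        exact pow_ne_zero _ (by exact_mod_cast (hTp p hp).1.ne_zero)
    rw [← h1]
    refine Real.log_le_log ?_ hle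
    refine Finset.prod_pos fun p hp => ?_
    have : (0 : ℝ) < p := by exact_mod_cast (hTp p hp).1.pos
    positivity
  -- the absolute value of the norm
  have hnorm : |((Algebra.norm ℤ y : ℤ) : ℝ)| = ∏ τ : L →ₐ[ℚ] ℂ, ‖τ (y : L)‖ := by
    have h1 := Algebra.norm_eq_prod_embeddings ℚ ℂ (y : L)
    rw [← _root_.norm_prod, ← h1, ← Algebra.coe_norm_int]
    simp
  have hcard : Fintype.card (L →ₐ[ℚ] ℂ) = d := AlgHom.card ℚ L ℂ
  have hlt : |((Algebra.norm ℤ y : ℤ) : ℝ)| < Real.exp (c * n) ^ d := by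
    rw [hnorm, ← hcard, ← Finset.card_univ, ← Finset.prod_const]
    have hne : (Finset.univ : Finset (L →ₐ[ℚ] ℂ)).Nonempty := by
      rw [← Finset.card_pos, Finset.card_univ, hcard]
      exact hd0
    refine Finset.prod_lt_prod_of_nonempty (fun τ _ => ?_) (fun τ _ => ?_) hne
    · rw [norm_pos_iff, Ne, map_eq_zero]
      intro h
      exact hy0 (RingOfIntegers.ext h)
    · have h1 := hcon τ
      have h2 : τ (y : L) = τ ((g • x : 𝓞 L) : L) - τ (x : L) := by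
        rw [← map_sub]
        rfl
      rw [h2]
      exact h1
  have hlt' : Real.log |((Algebra.norm ℤ y : ℤ) : ℝ)| < c * n * d := by
    have h1 : (0 : ℝ) < |((Algebra.norm ℤ y : ℤ) : ℝ)| := by
      rw [abs_pos]
      exact_mod_cast hnorm0
    have h2 := Real.log_lt_log h1 hlt
    rw [Real.log_pow, Real.log_exp] at h2
    linarith
  have h9 := hw g
  have : c * d * n = c * n * d := by ring
  linarith

/-- **Chern roots in a fixed number field** -/
theorem main_roots (K : IntermediateField ℚ ℂ) [FiniteDimensional ℚ K] [IsGalois ℚ K] (θ c : ℝ)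
    (hθ : 0 ≤ θ) (hc0 : 0 < c) (hc : c * Module.finrank ℚ K < 1 - 2 * θ) : ∃ n₀ : ℕ, ∀ n : ℕ,
    n₀ ≤ n → ∀ (r : ℕ) (P : Polynomial ℤ), (r : ℝ) ≤ θ * n → P.Monic → P.natDegree = r →
      RiemannRoch n P → (∀ x ∈ rootsOf P, x ∈ K) →
        (∃ s : Multiset ℤ, P = (s.map fun a => Polynomial.X - Polynomial.C a).prod) ∨
        ∃ x ∈ rootsOf P, ∃ y ∈ rootsOf P, Real.exp (c * n) ≤ ‖x - y‖ := by
  classical
  haveI : NumberField K := ⟨⟩
  obtain ⟨n₀, hn₀⟩ := main_gal K θ c hθ hc0 hc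
  refine ⟨n₀, fun n hn r P hr hP hdeg hRR hK => ?_⟩
  by_cases hint : ∀ x ∈ rootsOf P, ∃ a : ℤ, x = a
  · exact Or.inl (splits_of P hP hint)
  right
  push Not at hint
  obtain ⟨z, hz, hza⟩ := hint
  have hne : P.map (Int.castRingHom ℂ) ≠ 0 := (hP.map _).ne_zero
  have hmem : ∀ w : ℂ, w ∈ rootsOf P ↔ Polynomial.aeval w P = 0 := by
    intro w
    rw [rootsOf, Polynomial.mem_roots hne, Polynomial.IsRoot, Polynomial.eval_map,
      Polynomial.aeval_def]
    exact Eq.congr_left (congrArg (fun f : ℤ →+* ℂ => Polynomial.eval₂ f w P) (RingHom.ext_int _ _))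
  have hz0 : Polynomial.aeval z P = 0 := (hmem z).1 hz
  have hzi : IsIntegral ℤ z := ⟨P, hP, by rw [← Polynomial.aeval_def]; exact hz0⟩
  set zK : K := ⟨z, hK z hz⟩ with hzK
  have hzKi : IsIntegral ℤ zK := by
    rw [← isIntegral_algebraMap_iff (algebraMap K ℂ).injective]
    exact hzi
  set x : 𝓞 K := ⟨zK, hzKi⟩ with hx
  have hx0 : Polynomial.aeval x P = 0 := by
    apply RingOfIntegers.ext
    apply (algebraMap K ℂ).injective
    refine Eq.trans ?_ (by simp : (0 : ℂ) = algebraMap K ℂ ((0 : 𝓞 K) : K))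
    have h1 : algebraMap K ℂ (algebraMap (𝓞 K) K (Polynomial.aeval x P)) =
        Polynomial.aeval (algebraMap K ℂ (algebraMap (𝓞 K) K x)) P := by
      rw [← Polynomial.aeval_algebraMap_apply, ← Polynomial.aeval_algebraMap_apply]
    have h2 : algebraMap K ℂ (algebraMap (𝓞 K) K x) = z := rfl
    have h3 : algebraMap K ℂ (algebraMap (𝓞 K) K (Polynomial.aeval x P)) = 0 := by
      rw [h1, h2, hz0]
    exact h3
  have hg : ∃ g : Gal(K/ℚ), g • x ≠ x := by
    by_contra hcon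
    push Not at hcon
    have hb1 : ∀ σ : Gal(K/ℚ), σ (x : K) = (x : K) := fun σ =>
      congrArg (algebraMap (𝓞 K) K) (hcon σ)
    have hb2 : (x : K) ∈ (⊥ : IntermediateField ℚ K) :=
      (IsGalois.mem_bot_iff_fixed (F := ℚ) (E := K) (x : K)).mpr hb1
    obtain ⟨q, hq⟩ := IntermediateField.mem_bot.mp hb2
    have hqi : IsIntegral ℤ q := by
      rw [← isIntegral_algebraMap_iff (algebraMap ℚ K).injective, hq]
      exact x.2
    obtain ⟨m, hm⟩ := IsIntegrallyClosed.isIntegral_iff.mp hqi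
    apply hza m
    have h1 : z = algebraMap K ℂ (x : K) := rfl
    rw [h1, ← hq, ← hm]
    simp
  obtain ⟨g, hg⟩ := hg
  obtain ⟨τ, hτ⟩ := hn₀ n hn r P hr hP hdeg hRR x hx0 g hg
  have hroot : ∀ w : 𝓞 K, Polynomial.aeval w P = 0 → τ (w : K) ∈ rootsOf P := by
    intro w hw
    rw [hmem]
    have h1 : Polynomial.aeval (τ (w : K)) P = (τ : K →+* ℂ) (algebraMap (𝓞 K) K
        (Polynomial.aeval w P)) := by
      rw [← Polynomial.aeval_algebraMap_apply, Polynomial.aeval_def, Polynomial.aeval_def,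
        Polynomial.hom_eval₂]
      congr 1
      exact RingHom.ext_int _ _
    rw [h1, hw, map_zero, map_zero]
  refine ⟨_, hroot _ ?_, _, hroot x hx0, hτ⟩
  have h1 : Polynomial.aeval (g • x) P = g • Polynomial.aeval x P := by
    have h2 := Polynomial.hom_eval₂ P (algebraMap ℤ (𝓞 K))
      (MulSemiringAction.toRingHom Gal(K/ℚ) (𝓞 K) g) x
    rw [Polynomial.aeval_def, Polynomial.aeval_def]
    refine Eq.trans ?_ h2.symm
    show Polynomial.eval₂ _ _ P = Polynomial.eval₂ _ _ P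
    congr 1
    exact RingHom.ext_int _ _
  rw [h1, hx0, smul_zero]

end Pool.Agent.R503.CR
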