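import Pool.Agent.W401.Cheb.Main
import Pool.Agent.R920.CH.Mod

/-!
# Differences of conjugate Chern roots: divisibility of the norm
-/

set_option autoImplicit false

open NumberField Pool.Agent.W401.Cheb

namespace Pool.Agent.R503.CR

variable {L : Type} [Field L] [NumberField L]

lemma pow_not_mem (P : Ideal (𝓞 L)) [hP : P.IsPrime] {p : ℕ} (hp : p.Prime)
    (hpP : (p : 𝓞 L) ∈ P) (h2 : (p : 𝓞 L) ∉ P ^ 2) (a : ℕ) : ((p : 𝓞 L) ^ a) ∉ P ^ (a + 1) := by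
  intro h
  have hp0 : (p : 𝓞 L) ≠ 0 := by exact_mod_cast hp.ne_zero
  have hP0 : P ≠ ⊥ := by
    intro h0
    rw [h0, Ideal.mem_bot] at hpP
    exact hp0 hpP
  have hPp : Prime P := Ideal.prime_of_isPrime hP0 hP
  obtain ⟨J, hJ⟩ := Ideal.dvd_span_singleton.2 hpP
  have hPJ : ¬ P ∣ J := by
    rintro ⟨J', hJ'⟩
    apply h2
    rw [← Ideal.dvd_span_singleton, hJ, hJ', sq, ← mul_assoc]
    exact dvd_mul_right _ _
  rw [← Ideal.dvd_span_singleton, ← Ideal.span_singleton_pow, hJ, mul_pow, pow_succ] at h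
  exact hPJ (hPp.dvd_of_dvd_pow ((mul_dvd_mul_iff_left (pow_ne_zero a hPp.ne_zero)).1 h))

lemma mem_pow_int (P : Ideal (𝓞 L)) [hP : P.IsPrime] {p : ℕ} (hp : p.Prime)
    (hpP : (p : 𝓞 L) ∈ P) (h2 : (p : 𝓞 L) ∉ P ^ 2) {m : ℤ} (hm : m ≠ 0) {k : ℕ}
    (h : (m : 𝓞 L) ∈ P ^ k) : ((p : ℤ) ^ k) ∣ m := by
  have hfin : FiniteMultiplicity (p : ℤ) m := by
    rw [Int.finiteMultiplicity_iff]
    refine ⟨?_, hm⟩
    rw [Int.natAbs_natCast]
    exact hp.one_lt.ne'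
  obtain ⟨u, hu, hpu⟩ := hfin.exists_eq_pow_mul_and_not_dvd
  set a := multiplicity (p : ℤ) m with ha
  by_contra hcon
  have hak : a < k := by
    by_contra hle
    apply hcon
    rw [hu]
    exact dvd_mul_of_dvd_left (pow_dvd_pow _ (not_lt.1 hle)) _
  have h3 : (p : 𝓞 L) ^ a * (u : 𝓞 L) ∈ P ^ (a + 1) := by
    have h4 : (m : 𝓞 L) = (p : 𝓞 L) ^ a * (u : 𝓞 L) := by
      conv_lhs => rw [hu]
      push_cast
      rfl
    rw [← h4]
    exact Ideal.pow_le_pow_right hak h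
  rcases Ideal.IsPrime.mem_pow_mul P h3 with h4 | h4
  · exact pow_not_mem P hp hpP h2 a h4
  · have hcop : IsCoprime (p : ℤ) u := (Nat.prime_iff_prime_int.1 hp).irreducible.coprime_iff_not_dvd.2 hpu
    obtain ⟨s, t, hst⟩ := hcop
    apply hP.ne_top
    rw [Ideal.eq_top_iff_one]
    have h5 : (1 : 𝓞 L) = (s : 𝓞 L) * p + (t : 𝓞 L) * u := by
      have := congrArg (fun z : ℤ => (z : 𝓞 L)) hst
      push_cast at this
      exact this.symm
    rw [h5]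
    exact P.add_mem (P.mul_mem_left _ hpP) (P.mul_mem_left _ h4)

/-- a prime not dividing the discriminant is not in the square of a prime ideal -/
lemma not_mem_sq (P : Ideal (𝓞 L)) [hP : P.IsPrime] {p : ℕ} (hp : p.Prime)
    (hpP : (p : 𝓞 L) ∈ P) (hd : ¬ (p : ℤ) ∣ discr L) : (p : 𝓞 L) ∉ P ^ 2 := by
  intro h
  have hpi : Prime (p : ℤ) := Nat.prime_iff_prime_int.1 hp
  have hmax : (Ideal.span {(p : ℤ)}).IsMaximal :=
    PrincipalIdealRing.isMaximal_of_irreducible hpi.irreducible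
  have h1 : P ^ 2 ∣ (Ideal.span {(p : ℤ)}).map (algebraMap ℤ (𝓞 L)) := by
    rw [Ideal.map_span, Set.image_singleton, Ideal.dvd_span_singleton]
    simpa using h
  have h2 := pow_sub_one_dvd_differentIdeal ℤ P 2 (by
    rw [Ne, Ideal.span_singleton_eq_bot]; exact hpi.ne_zero) h1
  have h3 : ((discr L : ℤ) : 𝓞 L) ∈ P := by
    have h4 : P ∣ differentIdeal ℤ (𝓞 L) := by simpa using h2
    exact Ideal.dvd_iff_le.1 h4 (discr_mem_differentIdeal L (𝓞 L))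
  have hcop : IsCoprime (p : ℤ) (discr L) := hpi.irreducible.coprime_iff_not_dvd.2 hd
  obtain ⟨s, t, hst⟩ := hcop
  apply hP.ne_top
  rw [Ideal.eq_top_iff_one]
  have h5 : (1 : 𝓞 L) = (s : 𝓞 L) * p + (t : 𝓞 L) * ((discr L : ℤ) : 𝓞 L) := by
    have := congrArg (fun z : ℤ => (z : 𝓞 L)) hst
    push_cast at this
    exact this.symm
  rw [h5]
  exact P.add_mem (P.mul_mem_left _ hpP) (P.mul_mem_left _ h3)

/-- the norm is the product of the conjugates -/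
lemma norm_prod [IsGalois ℚ L] (y : 𝓞 L) :
    ((Algebra.norm ℤ y : ℤ) : 𝓞 L) = ∏ σ : Gal(L/ℚ), σ • y := by
  apply RingOfIntegers.ext
  have h1 := Algebra.norm_eq_prod_automorphisms ℚ (y : L)
  have h2 : ((∏ σ : Gal(L/ℚ), σ • y : 𝓞 L) : L) = ∏ σ : Gal(L/ℚ), σ (y : L) := by
    show algebraMap (𝓞 L) L (∏ σ : Gal(L/ℚ), σ • y) = _
    rw [map_prod]
    rfl
  rw [h2, ← h1, ← Algebra.coe_norm_int]
  simp

theorem xp_dvd [IsGalois ℚ L] {p : ℕ} [hp : Fact p.Prime] (ht : TorAt L p)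
    (hd : ¬ (p : ℤ) ∣ discr L) (y : 𝓞 L) (hy : y ≠ 0) (g : Gal(L/ℚ))
    (hφ : ∀ φ : 𝓞 L →+* AlgebraicClosure (ZMod p), HasFrob p φ g → φ y = 0) :
    (p : ℤ) ^ (xp L g p) ∣ Algebra.norm ℤ y := by
  classical
  by_cases hx : xp L g p = 0
  · rw [hx, pow_zero]
    exact one_dvd _
  have hxp : xp L g p = Nat.card {φ : 𝓞 L →+* AlgebraicClosure (ZMod p) // HasFrob p φ g} := by
    unfold xp
    rw [dif_pos hp.out]
  obtain ⟨φ₀, hφ₀⟩ : ∃ φ₀ : 𝓞 L →+* AlgebraicClosure (ZMod p), HasFrob p φ₀ g := by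
    rw [hxp] at hx
    obtain ⟨⟨⟨φ₀, hφ₀⟩⟩, -⟩ := Nat.card_ne_zero.1 hx
    exact ⟨φ₀, hφ₀⟩
  set P : Ideal (𝓞 L) := RingHom.ker φ₀ with hP
  have hPp : P.IsPrime := RingHom.ker_isPrime φ₀
  have hPl : ((p : ℕ) : 𝓞 L) ∈ P := by
    rw [hP, RingHom.mem_ker, map_natCast, CharP.cast_eq_zero]
  have h0 : Algebra.norm ℤ y ≠ 0 := by
    rw [Ne, Algebra.norm_eq_zero_iff]
    exact hy
  refine mem_pow_int P hp.out hPl (not_mem_sq P hp.out hPl hd) h0 ?_
  rw [norm_prod]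
  set S : Finset Gal(L/ℚ) := Finset.univ.filter fun σ => HasFrob p (tw φ₀ σ) g with hS
  have hcard : S.card = xp L g p := by
    rw [hxp, ← Nat.card_congr (Equiv.subtypeEquiv (torE ht φ₀)
      (p := fun σ => HasFrob p (tw φ₀ σ) g) (fun σ => Iff.rfl)), Nat.card_eq_fintype_card,
      Fintype.card_subtype]
  rw [← Finset.prod_mul_prod_compl S, ← hcard]
  refine Ideal.mul_mem_right _ _ ?_
  rw [← Finset.prod_const]
  refine Ideal.prod_mem_prod fun σ hσ => ?_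
  rw [hS, Finset.mem_filter] at hσ
  rw [hP, RingHom.mem_ker]
  exact hφ _ hσ.2

/-- the Chern roots are rational modulo primes -/
theorem root_pow {n r : ℕ} (P : Polynomial ℤ) (hP : P.Monic) (hr : P.natDegree = r)
    (hRR : Pool.Agent.R920.CH.RiemannRoch n P) (p : ℕ) [hp : Fact p.Prime] (hrp : r < p)
    (hpn : p + r ≤ n + 1) {x : 𝓞 L} (hx : Polynomial.aeval x P = 0)
    (φ : 𝓞 L →+* AlgebraicClosure (ZMod p)) : φ x ^ p = φ x := by
  obtain ⟨a, ha⟩ := Pool.Agent.R920.CH.splits_mod P hP hr hRR p hrp hpn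
  have h1 : Polynomial.eval₂ (Int.castRingHom (AlgebraicClosure (ZMod p))) (φ x) P = 0 := by
    have h2 := congrArg φ hx
    rw [map_zero, Polynomial.aeval_def, Polynomial.hom_eval₂] at h2
    rw [← h2]
    exact congrArg (fun f : ℤ →+* AlgebraicClosure (ZMod p) => Polynomial.eval₂ f (φ x) P)
      (RingHom.ext_int _ _)
  have h2 : Polynomial.eval₂ (algebraMap (ZMod p) (AlgebraicClosure (ZMod p))) (φ x)
      (P.map (Int.castRingHom (ZMod p))) = 0 := by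
    rw [Polynomial.eval₂_map]
    rw [← h1]
    exact congrArg (fun f : ℤ →+* AlgebraicClosure (ZMod p) => Polynomial.eval₂ f (φ x) P)
      (RingHom.ext_int _ _)
  rw [ha, Polynomial.eval₂_finsetProd, Finset.prod_eq_zero_iff] at h2
  obtain ⟨i, -, hi⟩ := h2
  rw [Polynomial.eval₂_sub, Polynomial.eval₂_X, Polynomial.eval₂_C, sub_eq_zero] at hi
  rw [hi, ← map_pow, ZMod.pow_card]

end Pool.Agent.R503.CR
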